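import Mathlib
import Pool.Agent.H30.ND

set_option autoImplicit false

namespace Pool.Agent.Results.MP_b47357_gt.Graph

open Set Filter Topology Cardinal Pool.Agent.H30

universe u

/-- Weakly Lindelof spaces. -/
def WL (X : Type u) [TopologicalSpace X] : Prop :=
  ∀ 𝒰 : Set (Set X), (∀ U ∈ 𝒰, IsOpen U) → ⋃₀ 𝒰 = Set.univ →
    ∃ 𝒱 ⊆ 𝒰, 𝒱.Countable ∧ Dense (⋃₀ 𝒱)

/-- Weakly Alster spaces. -/
def WAlster (X : Type) [TopologicalSpace X] : Prop :=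
  ∀ 𝒰 : Set (Set X), (∀ U ∈ 𝒰, IsGδ U) → Set.univ ∉ 𝒰 →
    (∀ C : Set X, IsCompact C → ∃ U ∈ 𝒰, C ⊆ U) → ∃ 𝒱 ⊆ 𝒰, 𝒱.Countable ∧ Dense (⋃₀ 𝒱)

abbrev κ := ℕ → Bool

noncomputable def e0 : Finset κ ↪ κ := ((Cardinal.le_def _ _).1 (mk_finset_of_infinite κ).le).some

open Classical in
def S : Set (ℕ ⊕ κ → Bool) := {x | ∃ t : Finset κ, (∀ k, x (.inr k) = decide (k ∈ t)) ∧
  ∀ᶠ n in atTop, x (.inl n) = e0 t n.unpair.1}

lemma dn (F : Finset (ℕ ⊕ κ)) (y : ℕ ⊕ κ → Bool) : ∃ x : S, ∀ i ∈ F, x.1 i = y i := by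
  classical
  let t := F.toRight.filter fun k => y (.inr k) = true
  refine ⟨⟨Sum.elim (fun n => if .inl n ∈ F then y (.inl n) else e0 t n.unpair.1)
    fun k => decide (k ∈ t), t, fun _ => by simp, ?_⟩, ?_⟩
  · obtain ⟨m, hm⟩ := F.toLeft.exists_nat_subset_range
    filter_upwards [eventually_ge_atTop m] with n hn
    exact if_neg fun h => absurd (Finset.mem_range.1 (hm (Finset.mem_toLeft.2 h))) (not_lt.2 hn)
  · rintro (n | k) h <;> simp [t, h]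

lemma nb {W : Set S} (hW : IsOpen W) {x : S} (hx : x ∈ W) :
    ∃ F : Finset (ℕ ⊕ κ), ∀ y : S, (∀ α ∈ F, y.1 α = x.1 α) → y ∈ W := by
  obtain ⟨W', hW', rfl⟩ := isOpen_induced_iff.1 hW
  obtain ⟨F, u, h1, h2⟩ := isOpen_pi_iff.1 hW' _ hx
  exact ⟨F, fun y h => h2 fun α hα => (h α hα).symm ▸ (h1 α hα).2⟩

lemma pwl (Y : Type u) [TopologicalSpace Y] (hY : WL Y) : WL (S × Y) := fun 𝒰 h1 h2 => by
  classical
  have : ∀ (x : S) (y : Y), ∃ U ∈ 𝒰, ∃ (F : Finset (ℕ ⊕ κ)) (W : Set Y), IsOpen W ∧ y ∈ W ∧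
      ∀ z : S, (∀ α ∈ F, z.1 α = x.1 α) → ∀ w ∈ W, (z, w) ∈ U := fun x y => by
    obtain ⟨U, hU, h⟩ := mem_sUnion.1 (h2.ge (mem_univ (x, y)))
    obtain ⟨a, b, c1, c2, c3, c4, c5⟩ := isOpen_prod_iff.1 (h1 U hU) x y h
    obtain ⟨F, hF⟩ := nb c1 c3
    exact ⟨U, hU, F, b, c2, c4, fun z hz w hw => c5 ⟨hF z hz, hw⟩⟩
  choose U u1 F W w1 w2 w3 using this
  have : ∀ x : S, ∃ C : Set Y, C.Countable ∧ Dense (⋃ y ∈ C, W x y) := fun x => by
    obtain ⟨𝒱, k1, k2, k3⟩ := hY (range (W x)) (by rintro _ ⟨y, rfl⟩; exact w1 x y)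
      (eq_univ_of_forall fun y => ⟨_, ⟨y, rfl⟩, w2 x y⟩)
    choose g hg using fun V : 𝒱 => k1 V.2
    have := k2.to_subtype
    refine ⟨range g, countable_range g, k3.mono ?_⟩
    rintro y ⟨V, hV, hy⟩
    exact mem_biUnion (mem_range_self (f := g) ⟨V, hV⟩) ((hg ⟨V, hV⟩).symm ▸ hy)
  choose C c1 c2 using this
  choose p hp using fun G E : Finset (ℕ ⊕ κ) => dn G fun i => decide (i ∈ E)
  obtain ⟨M, hM, hc⟩ := ND.hull (fun G E => ⋃ y ∈ C (p G E), ↑(F (p G E) y))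
    fun G E => (c1 _).biUnion fun _ _ => Finset.countable_toSet _
  refine ⟨⋃ G ∈ {G : Finset _ | ↑G ⊆ M}, ⋃ E ∈ {G : Finset _ | ↑G ⊆ M}, U (p G E) '' C (p G E),
    iUnion₂_subset fun G _ => iUnion₂_subset fun E _ => by rintro _ ⟨y, -, rfl⟩; exact u1 _ _,
    (ND.cf hM).biUnion fun G _ => (ND.cf hM).biUnion fun E _ => (c1 _).image _,
    dense_iff_inter_open.2 ?_⟩
  rintro O hO ⟨⟨x, y⟩, h⟩
  obtain ⟨a, b, c1, c3, c4, c5, c6⟩ := isOpen_prod_iff.1 hO x y h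
  obtain ⟨H, hH⟩ := nb c1 c4
  let G := H.filter (· ∈ M)
  let E := G.filter (x.1 · = true)
  have hG : ↑G ⊆ M := fun x hx => (Finset.mem_filter.1 hx).2
  have hE : ↑E ⊆ M := fun x hx => hG (Finset.mem_filter.1 hx).1
  obtain ⟨w, k1, k2⟩ := (c2 (p G E)).exists_mem_open c3 ⟨y, c5⟩
  obtain ⟨v, k3, k4⟩ := mem_iUnion₂.1 k1
  obtain ⟨z, hz⟩ := dn (H ∪ F (p G E) v) fun i => if i ∈ H then x.1 i else (p G E).1 i
  refine ⟨(z, w), c6 ⟨hH z fun i hi => by rw [hz i (Finset.mem_union_left _ hi), if_pos hi], k2⟩,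
    _, mem_biUnion hG (mem_biUnion hE ⟨v, k3, rfl⟩), w3 _ _ z (fun i hi => ?_) w k4⟩
  rw [hz i (Finset.mem_union_right _ hi)]
  split_ifs with k
  · have : i ∈ G := Finset.mem_filter.2 ⟨k, hc G E hG hE (mem_biUnion k3 hi)⟩
    rw [hp G E i this]; simp [E, this]
  · rfl

def f (x : S) (n : ℕ) : Bool := x.1 (.inl n)

lemma f_cont : Continuous f :=
  (show Continuous fun (x : ℕ ⊕ κ → Bool) n => x (.inl n) by fun_prop).comp continuous_subtype_val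

lemma f_inj : Function.Injective f := by
  rintro ⟨x, t, h1, h2⟩ ⟨y, s, k1, k2⟩ h
  obtain ⟨m, hm⟩ := eventually_atTop.1 (h2.and k2)
  have : t = s := e0.injective (funext fun n => by
    have := hm (n.pair m) (Nat.right_le_pair _ _)
    rw [Nat.unpair_pair] at this
    exact this.1.symm.trans ((congrFun h _).trans this.2))
  refine Subtype.ext (funext ?_)
  rintro (n | k)
  · exact congrFun h n
  · exact (h1 k).trans (this ▸ (k1 k).symm)

lemma opn (k : κ) : IsOpen {x : S | x.1 (.inr k) = true} :=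
  ((isOpen_discrete {true}).preimage (f := fun x : ℕ ⊕ κ → Bool => x (.inr k)) (by fun_prop)).preimage
    continuous_subtype_val

lemma supp {C : Set S} (h : IsCompact C) : {k | ∃ x ∈ C, x.1 (.inr k) = true}.Countable := by
  have := isCompact_iff_compactSpace.1 h
  have := ((f_cont.comp continuous_subtype_val).isClosedEmbedding (X := C)
    (f_inj.comp Subtype.val_injective)).isEmbedding.secondCountableTopology
  obtain ⟨D, h1, h2⟩ := TopologicalSpace.exists_countable_dense C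
  choose t ht _ using fun x : S => x.2
  refine (h1.biUnion fun x _ => (t x).countable_toSet).mono ?_
  rintro k ⟨x, k1, k2⟩
  obtain ⟨y, k3, k4⟩ := h2.exists_mem_open ((opn k).preimage continuous_subtype_val) ⟨⟨x, k1⟩, k2⟩
  exact mem_biUnion k3 (by simpa [ht] using k4)

lemma nd {𝒱 : Set (Set S)} (h1 : 𝒱 ⊆ {C | IsCompact C}) (h2 : 𝒱.Countable) : ¬ Dense (⋃₀ 𝒱) :=
  fun h => by
  have : Uncountable κ := by
    rw [← Cardinal.aleph0_lt_mk_iff]; simp [Cardinal.aleph0_lt_continuum]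
  obtain ⟨k, hk⟩ := (nonempty_compl (s := ⋃ C ∈ 𝒱, {k | ∃ x ∈ C, x.1 (.inr k) = true})).2 fun e =>
    not_countable_univ (e ▸ h2.biUnion fun C hC => supp (h1 hC))
  obtain ⟨z, hz⟩ := dn {.inr k} fun _ => true
  obtain ⟨x, ⟨C, k1, k2⟩, k3⟩ := h.exists_mem_open (opn k) ⟨z, hz _ (by simp)⟩
  exact hk (mem_biUnion k1 ⟨x, k2, k3⟩)

theorem result : ∃ (X : Type) (_ : TopologicalSpace X), T35Space X ∧
    (∀ (Y : Type u) [TopologicalSpace Y], WL Y → WL (X × Y)) ∧ ¬ WAlster X := by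
  refine ⟨S, inferInstance, inferInstance, pwl, fun h => ?_⟩
  obtain ⟨𝒱, h1, h2, h3⟩ := h {C | IsCompact C} (fun C hC => by
    rw [← preimage_image_eq C f_inj]
    exact (hC.image f_cont).isClosed.isGδ.preimage f_cont)
    (fun h => nd (singleton_subset_iff.2 h) (countable_singleton _) (by simp))
    fun C hC => ⟨C, hC, subset_rfl⟩
  exact nd h1 h2 h3

end Pool.Agent.Results.MP_b47357_gt.Graph
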